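import Mathlib

namespace Pool.Agent.Results.MP_d8de41_al.NotUI

universe u

def nullSub (G : ℕ → Type u) [∀ i, Group (G i)] (U : Ultrafilter ℕ) : Subgroup (∀ i, G i) where
  carrier := {g | {i | g i = 1} ∈ U}
  one_mem' := Filter.univ_mem' fun _ => rfl
  mul_mem' := by
    intro a b ha hb
    refine Filter.mem_of_superset (Filter.inter_mem ha hb) ?_
    rintro i ⟨h1, h2⟩
    simp only [Set.mem_setOf_eq] at h1 h2 ⊢
    simp [h1, h2]
  inv_mem' := by
    intro a ha
    simpa using ha

instance nullSub_normal (G : ℕ → Type u) [∀ i, Group (G i)] (U : Ultrafilter ℕ) :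
    (nullSub G U).Normal where
  conj_mem := by
    intro a ha g
    refine Filter.mem_of_superset ha ?_
    intro i h
    simp only [Set.mem_setOf_eq] at h ⊢
    simp [h]

def IsUI (H : Type) [Group H] : Prop :=
  ∃ (G : ℕ → Type u) (_ : ∀ i, Group (G i)) (U : Ultrafilter ℕ), (∀ n, U ≠ pure n) ∧
    ∃ f : ((∀ i, G i) ⧸ nullSub G U) →* H, Function.Surjective f

def fin : Subgroup (ℕ → Equiv.Perm (Fin 3)) where
  carrier := {g | {i | g i ≠ 1}.Finite}
  one_mem' := by simp
  mul_mem' := by
    intro a b ha hb
    refine (Set.Finite.union ha hb).subset ?_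
    intro i hi
    by_contra h
    simp only [Set.mem_union, Set.mem_setOf_eq, not_or, not_not] at h
    exact hi (by simp [h.1, h.2])
  inv_mem' := by
    intro a ha
    simpa using ha

def sing (n : ℕ) (x : Equiv.Perm (Fin 3)) : fin :=
  ⟨Pi.mulSingle n x, (Set.finite_singleton n).subset (by
    intro i hi
    by_contra h
    exact hi (by simp [Pi.mulSingle_apply, show i ≠ n from h]))⟩

def rr : Equiv.Perm (Fin 3) := Equiv.swap 0 1 * Equiv.swap 1 2
def ss : Equiv.Perm (Fin 3) := Equiv.swap 0 1

def ww {G : Type*} [Group G] (r s x : G) : G := r * x ^ 2 * s * x ^ 2 * s⁻¹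

def ff {G : Type*} [Group G] (r s : ℕ → G) : ℕ → ℕ → G
  | 0, _ => 1
  | k + 1, n => ww (r n) (s n) (ff r s k (n + 1))

theorem result : ∃ (H : Type) (_ : Group H), (∃ n : ℕ, 0 < n ∧ ∀ h : H, h ^ n = 1) ∧
    ¬ IsUI.{u} H := by
  refine ⟨fin, inferInstance, ⟨6, by norm_num, fun h => ?_⟩, ?_⟩
  · ext1; funext i
    have : ∀ x : Equiv.Perm (Fin 3), x ^ 6 = 1 := by decide +kernel
    exact this _
  rintro ⟨G, _, U, hU, f, hf⟩
  let p : (∀ i, G i) →* fin := f.comp (QuotientGroup.mk' _)
  have hp : Function.Surjective p := hf.comp (QuotientGroup.mk'_surjective _)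
  have hcof : ∀ n, {i | n < i} ∈ U := by
    intro n
    have h := (Ultrafilter.le_cofinite_or_eq_pure U).resolve_right (by simpa using hU)
    apply h
    simpa [Filter.mem_cofinite, Set.compl_setOf] using Set.finite_le_nat n
  have hpe : ∀ n (a b : ∀ i, G i), (∀ i, n < i → a i = b i) → p a = p b := by
    intro n a b h
    have : (QuotientGroup.mk' (nullSub G U)) a = QuotientGroup.mk' (nullSub G U) b := by
      simp only [QuotientGroup.mk'_apply]
      rw [QuotientGroup.eq]
      refine Filter.mem_of_superset (hcof n) ?_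
      intro i hi
      simp [h i hi]
    simp only [p, MonoidHom.comp_apply, this]
  choose r hr using fun n => hp (sing n rr)
  choose s hs using fun n => hp (sing n ss)
  let h : ℕ → ∀ i, G i := fun n i => ff (fun k => r k i) (fun k => s k i) (i - n) n
  have hh : ∀ n, p (h n) = ww (sing n rr) (sing n ss) (p (h (n + 1))) := by
    intro n
    rw [← hr, ← hs, hpe n (h n) (ww (r n) (s n) (h (n + 1)))]
    · simp [ww]
    · intro i hi
      have : i - n = (i - (n + 1)) + 1 := by omega
      simp only [h, this, ff]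
      rfl
  have key : ∀ m k, k ≤ m → (p (h (m - k))).1 m = rr := by
    intro m k
    induction k with
    | zero =>
      intro _
      rw [Nat.sub_zero, hh]
      have : ∀ x : Equiv.Perm (Fin 3), ww rr ss x = rr := by decide +kernel
      simpa [ww, sing] using this ((p (h (m + 1))).1 m)
    | succ k ih =>
      intro hk
      have e : m - (k + 1) + 1 = m - k := by omega
      have ne : m ≠ m - (k + 1) := by omega
      rw [hh, e]
      have := ih (by omega)
      have h4 : ww 1 1 rr = rr := by decide
      simpa [ww, sing, Pi.mulSingle_eq_of_ne ne, this] using h4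
  have hfin : {i | (p (h 0)).1 i ≠ 1}.Finite := (p (h 0)).2
  apply Set.infinite_univ (α := ℕ)
  refine hfin.subset fun m _ => ?_
  have := key m m le_rfl
  rw [Nat.sub_self] at this
  simp only [Set.mem_setOf_eq, this]
  decide

end Pool.Agent.Results.MP_d8de41_al.NotUI
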